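import Pool.Agent.helper21.OE.SpecB

/-! # Row oe:CFE (MP_2e0e07_nt) -/

set_option autoImplicit false

namespace Pool.Agent.OE

open MvPolynomial Matrix

theorem CFE (hEXQ : EXQ_stmt) : CFE_stmt := by
  intro d t κ _ π j P hP g x y
  have h := (hEXQ (A := κ) j).1 P hP
  conv_lhs => rw [h]
  rw [map_sum, map_sum]
  refine Finset.sum_congr rfl fun a _ => ?_
  rw [map_sum, map_sum]
  refine Finset.sum_congr rfl fun b _ => ?_
  unfold mon act
  simp only [map_mul, map_pow, MvPolynomial.aeval_X, MvPolynomial.aeval_C,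
    MvPolynomial.algebraMap_eq, MvPolynomial.eval_C, MvPolynomial.eval_X, map_add,
    Matrix.cons_val_zero, Matrix.cons_val_one, Matrix.cons_val, mul_one]
  ring

end Pool.Agent.OE
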