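import Pool.Agent.helper21.OE.SpecA

/-! # Row oe:ACB (MP_2e0e07_nt) -/

set_option autoImplicit false

namespace Pool.Agent.OE

open MvPolynomial Matrix

theorem ACB : ACB_stmt := by
  intro d t A B _ _ f φ g P
  induction P using MvPolynomial.induction_on with
  | C a =>
    rw [MvPolynomial.map_C]
    unfold act
    rw [MvPolynomial.aeval_C, MvPolynomial.aeval_C, MvPolynomial.algebraMap_eq, MvPolynomial.algebraMap_eq,
      MvPolynomial.map_C]
  | add p q hp hq =>
    rw [map_add, map_add, map_add, map_add, hp, hq]
  | mul_X p i hp =>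
    rw [map_mul, map_mul, map_mul, map_mul, hp, MvPolynomial.map_X]
    congr 1
    fin_cases i <;> simp [act]

end Pool.Agent.OE
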