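import Pool.Agent.helper21.OE.SpecA

set_option autoImplicit false

/-!
# Row oe:FUA (MP_2e0e07_nt): Hecke operators modulo the prime and scalar symbols
-/

namespace Pool.Agent.OE

open MvPolynomial Matrix

theorem FUA_lin {d t : ℤ} {κ : Type} [Field κ] (π : Oz d t →+* κ) (k : ℕ) (x : Oz d t) :
    eval ![0, 1, 0, 1] (lin π k 1 x) = 1 := by
  unfold lin
  simp

theorem FUA_adj {d t : ℤ} (ℓ : ℕ) (x : Oz d t) :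
    (al ℓ (!![1, x; 0, 1] : Mat d t)).adjugate = !![((ℓ : ℕ) : Oz d t), -x; 0, 1] := by
  unfold al
  rw [Matrix.mul_fin_two, Matrix.adjugate_fin_two_of]
  simp

theorem FUA_a (hSNG : SNG_stmt) {d t : ℤ} {ℓ : ℕ} {κ : Type} [Field κ] (π : Oz d t →+* κ)
    (hℓ : ((ℓ : ℕ) : κ) = 0) (k : ℕ) (φ : Sy d t κ) (hφ : ∀ u v, BiHom k (φ u v)) :
    opU π ℓ φ = bU π ℓ k (evS φ) := by
  have hf : π ((ℓ : ℕ) : Oz d t) = 0 := by rw [map_natCast]; exact hℓ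
  funext u v
  show ∑ x : Fin ℓ × Fin ℓ, act π !![((ℓ : ℕ) : Oz d t), - rep d t x; 0, 1]
      (φ (!![1, rep d t x; 0, ((ℓ : ℕ) : Oz d t)] *ᵥ u)
        (!![1, rep d t x; 0, ((ℓ : ℕ) : Oz d t)] *ᵥ v)) =
    ∑ x : Fin ℓ × Fin ℓ,
      C (evS φ (!![1, rep d t x; 0, ((ℓ : ℕ) : Oz d t)] *ᵥ u)
        (!![1, rep d t x; 0, ((ℓ : ℕ) : Oz d t)] *ᵥ v)) * lin π k 1 (rep d t x)
  refine Finset.sum_congr rfl fun x _ => ?_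
  have h := hSNG π ℓ k _ hf (hφ (!![1, rep d t x; 0, ((ℓ : ℕ) : Oz d t)] *ᵥ u)
    (!![1, rep d t x; 0, ((ℓ : ℕ) : Oz d t)] *ᵥ v)) (!![1, rep d t x; 0, 1] : Mat d t)
  rw [FUA_adj] at h
  exact h

theorem FUA_c {d t : ℤ} {ℓ : ℕ} {κ : Type} [Field κ] (π : Oz d t →+* κ) (k : ℕ)
    (ψ : Vec d t → Vec d t → κ) : evS (bU π ℓ k ψ) = uS ℓ ψ := by
  funext u v
  show eval ![0, 1, 0, 1] (∑ x : Fin ℓ × Fin ℓ,
      C (ψ (!![1, rep d t x; 0, ((ℓ : ℕ) : Oz d t)] *ᵥ u)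
        (!![1, rep d t x; 0, ((ℓ : ℕ) : Oz d t)] *ᵥ v)) * lin π k 1 (rep d t x)) =
    ∑ x : Fin ℓ × Fin ℓ,
      ψ (!![1, rep d t x; 0, ((ℓ : ℕ) : Oz d t)] *ᵥ u)
        (!![1, rep d t x; 0, ((ℓ : ℕ) : Oz d t)] *ᵥ v)
  rw [map_sum]
  refine Finset.sum_congr rfl fun x _ => ?_
  rw [map_mul, eval_C, FUA_lin, mul_one]

theorem FUA (hSNG : SNG_stmt) : FUA_stmt := by
  intro d t ℓ F κ _ π hℓ k
  have hf : π ((ℓ : ℕ) : Oz d t) = 0 := by rw [map_natCast]; exact hℓ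
  refine ⟨fun φ hφ => FUA_a hSNG π hℓ k φ hφ, fun φ hφ => ?_, fun ψ => FUA_c π k ψ⟩
  funext u v
  show ∑ g ∈ F, act π (al ℓ g.val).adjugate (φ (al ℓ g.val *ᵥ u) (al ℓ g.val *ᵥ v)) =
    ∑ g ∈ F, C (evS φ (al ℓ g.val *ᵥ u) (al ℓ g.val *ᵥ v)) * lin π k (g.val 0 0) (g.val 0 1)
  refine Finset.sum_congr rfl fun g _ => ?_
  exact hSNG π ℓ k _ hf (hφ _ _) g.val

end Pool.Agent.OE
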